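import Pool.Agent.Q37.Dim.Pmd

/-!
# MP_c79496_ag: hypergraph LSS ideals are prime above the pmd bound

For every field, every clutter `E` of nonempty subsets of `Fin n` and every `d ≥ pmd(E) + 1`, the
ideal `L_E(d)` is prime.
-/

set_option autoImplicit false

open MvPolynomial

namespace Pool.Agent.Results.MP_c79496_ag.AbovePmd

/-- The polynomial `f_A^{(d)} = ∑_j ∏_{i ∈ A} y_{i,j}` in the variables `y_{i,j}`, `i < n`,
`j < d`. -/
noncomputable def edgePoly (K : Type) [Field K] (n d : ℕ) (A : Finset (Fin n)) :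
    MvPolynomial (Fin n × Fin d) K :=
  ∑ j : Fin d, ∏ i ∈ A, X (i, j)

/-- The hypergraph Lovász–Saks–Schrijver ideal `L_E(d)`. -/
noncomputable def LSS (K : Type) [Field K] {n : ℕ} (E : Finset (Finset (Fin n))) (d : ℕ) :
    Ideal (MvPolynomial (Fin n × Fin d) K) :=
  Ideal.span {f | ∃ A ∈ E, f = edgePoly K n d A}

/-- `M` is a positive matching of the hypergraph with edge set `E`: a set of pairwise disjoint edges
for which some real weights of the vertices are positive on the edges in `M` and negative on the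
other edges of `E`. -/
def IsPositiveMatching {n : ℕ} (E M : Finset (Finset (Fin n))) : Prop :=
  M ⊆ E ∧ (∀ A ∈ M, ∀ B ∈ M, A ≠ B → Disjoint A B) ∧
    ∃ w : Fin n → ℝ, (∀ A ∈ M, 0 < ∑ i ∈ A, w i) ∧ (∀ A ∈ E, A ∉ M → ∑ i ∈ A, w i < 0)

/-- `F 0, …, F (p - 1)` is a positive matching decomposition of `E`: the `F i` are nonempty,
pairwise disjoint, have union `E`, and each `F i` is a positive matching of the hypergraph whose
edges are those of `E` outside all `F j` with `j < i`. -/
def IsPMD {n : ℕ} (E : Finset (Finset (Fin n))) (p : ℕ) (F : Fin p → Finset (Finset (Fin n))) :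
    Prop :=
  (∀ i, (F i).Nonempty) ∧ (∀ i j, i ≠ j → Disjoint (F i) (F j)) ∧
    (∀ A, A ∈ E ↔ ∃ i, A ∈ F i) ∧
    ∀ i, IsPositiveMatching (E.filter fun A => ∀ j < i, A ∉ F j) (F i)

/-- The least number of parts of a positive matching decomposition. -/
noncomputable def pmd {n : ℕ} (E : Finset (Finset (Fin n))) : ℕ :=
  sInf {p | ∃ F : Fin p → Finset (Finset (Fin n)), IsPMD E p F}

lemma hasDec_of_isPMD {n : ℕ} (p : ℕ) : ∀ (E : Finset (Finset (Fin n)))
    (F : Fin p → Finset (Finset (Fin n))), IsPMD E p F → Q37.Hyp.HasDec p E := by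
  induction p with
  | zero =>
    rintro E F ⟨-, -, h, -⟩
    rw [Q37.Hyp.HasDec, Finset.eq_empty_iff_forall_notMem]
    intro A hA
    obtain ⟨i, -⟩ := (h A).1 hA
    exact i.elim0
  | succ p ih =>
    rintro E F ⟨h1, h2, h3, h4⟩
    refine ⟨F 0, ?_, ih (E \ F 0) (fun i => F i.succ) ⟨fun i => h1 _, ?_, ?_, ?_⟩⟩
    · have h5 := h4 0
      rw [Finset.filter_true_of_mem (fun A _ j hj => absurd hj (Fin.not_lt_zero j))] at h5
      exact h5
    · intro i j hij
      exact h2 _ _ fun h => hij (Fin.succ_injective _ h)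
    · intro A
      rw [Finset.mem_sdiff, h3]
      constructor
      · rintro ⟨⟨i, hi⟩, h0⟩
        refine Fin.cases (fun hi => absurd hi h0) (fun i hi => ⟨i, hi⟩) i hi
      · rintro ⟨i, hi⟩
        refine ⟨⟨_, hi⟩, fun h0 => ?_⟩
        exact Finset.disjoint_left.1 (h2 _ _ (Fin.succ_ne_zero i).symm) h0 hi
    · intro i
      have h5 := h4 i.succ
      have h6 : (E.filter fun A => ∀ j < i.succ, A ∉ F j) =
          ((E \ F 0).filter fun A => ∀ j < i, A ∉ F j.succ) := by
        ext A
        rw [Finset.mem_filter, Finset.mem_filter, Finset.mem_sdiff]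
        constructor
        · rintro ⟨hA, hj⟩
          exact ⟨⟨hA, hj 0 (Fin.succ_pos i)⟩, fun j hji => hj _ (Fin.succ_lt_succ_iff.2 hji)⟩
        · rintro ⟨⟨hA, h0⟩, hj⟩
          refine ⟨hA, fun j => Fin.cases (fun _ => h0) (fun j hji => ?_) j⟩
          exact hj j (Fin.succ_lt_succ_iff.1 hji)
      rwa [h6] at h5

/-- decompositions exist -/
lemma exists_isPMD {n : ℕ} (E : Finset (Finset (Fin n))) (hne : ∀ A ∈ E, A.Nonempty)
    (hcl : ∀ A ∈ E, ∀ B ∈ E, A ⊆ B → A = B) : ∃ p, ∃ F : Fin p → Finset (Finset (Fin n)),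
      IsPMD E p F := by
  let e : Fin E.card ≃ E := E.equivFin.symm
  refine ⟨E.card, fun i => {(e i : Finset (Fin n))}, fun i => Finset.singleton_nonempty _, ?_, ?_,
    ?_⟩
  · intro i j hij
    rw [Finset.disjoint_singleton]
    exact fun h => hij (e.injective (Subtype.ext h))
  · intro A
    constructor
    · intro hA
      exact ⟨e.symm ⟨A, hA⟩, by simp⟩
    · rintro ⟨i, hi⟩
      rw [Finset.mem_singleton] at hi
      rw [hi]
      exact (e i).2
  · intro i
    refine ⟨?_, ?_, fun a => if a ∈ (e i : Finset (Fin n)) then 1 else -(n + 1), ?_, ?_⟩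
    · rw [Finset.singleton_subset_iff, Finset.mem_filter]
      refine ⟨(e i).2, fun j hj h => ?_⟩
      rw [Finset.mem_singleton] at h
      exact hj.ne' (e.injective (Subtype.ext h))
    · intro A hA B hB hAB
      rw [Finset.mem_singleton] at hA hB
      exact absurd (hA.trans hB.symm) hAB
    · intro A hA
      rw [Finset.mem_singleton] at hA
      subst hA
      rw [Finset.sum_congr rfl fun a ha => if_pos ha, Finset.sum_const, nsmul_eq_mul, mul_one]
      exact_mod_cast Finset.card_pos.2 (hne _ (e i).2)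
    · intro A hA hA'
      rw [Finset.mem_filter] at hA
      rw [Finset.mem_singleton] at hA'
      have h1 : ¬ A ⊆ (e i : Finset (Fin n)) := fun h => hA' (hcl A hA.1 _ (e i).2 h)
      obtain ⟨a, ha, ha'⟩ := Finset.not_subset.1 h1
      rw [← Finset.add_sum_erase A _ ha, if_neg ha']
      have h2 : ∑ x ∈ A.erase a, (if x ∈ (e i : Finset (Fin n)) then (1 : ℝ) else -(n + 1)) ≤
          ∑ x ∈ A.erase a, 1 := by
        refine Finset.sum_le_sum fun x _ => ?_
        split_ifs
        · exact le_rfl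
        · have : (0 : ℝ) ≤ n := Nat.cast_nonneg n
          linarith
      have h3 : ((A.erase a).card : ℝ) ≤ n := by
        have := (A.erase a).card_le_univ
        rw [Fintype.card_fin] at this
        exact_mod_cast this
      rw [Finset.sum_const, nsmul_eq_mul, mul_one] at h2
      linarith

theorem result : ∀ (K : Type) [Field K] (n : ℕ) (E : Finset (Finset (Fin n))),
    (∀ A ∈ E, A.Nonempty) → (∀ A ∈ E, ∀ B ∈ E, A ⊆ B → A = B) → ∀ d : ℕ, pmd E + 1 ≤ d →
    (LSS K E d).IsPrime := by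
  intro K _ n E hne hcl d hd
  have h1 : ∃ F : Fin (pmd E) → Finset (Finset (Fin n)), IsPMD E (pmd E) F :=
    Nat.sInf_mem (s := {p | ∃ F : Fin p → Finset (Finset (Fin n)), IsPMD E p F})
      (exists_isPMD E hne hcl)
  obtain ⟨F, hF⟩ := h1
  have hdec := hasDec_of_isPMD _ E F hF
  obtain ⟨m, rfl⟩ : ∃ m, d = m + 1 := ⟨d - 1, by omega⟩
  have he : Q37.Hyp.Cl (fun i : E => (i : Finset (Fin n))) :=
    ⟨fun i => hne i i.2, fun i j hij => Subtype.ext (hcl i i.2 j j.2 hij)⟩
  have h2 : LSS K E (m + 1) = Ideal.span (Set.range fun i : E =>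
      Q37.Hyp.ef K (m + 1) (i : Finset (Fin n))) := by
    rw [LSS]
    congr 1
    ext f
    constructor
    · rintro ⟨A, hA, rfl⟩
      exact ⟨⟨A, hA⟩, rfl⟩
    · rintro ⟨⟨A, hA⟩, rfl⟩
      exact ⟨A, hA, rfl⟩
  rw [h2]
  exact Q37.Hyp.pr_succ he (Q37.Hyp.dm_of_dec' (by omega) hne hcl hdec)

end Pool.Agent.Results.MP_c79496_ag.AbovePmd
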